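import Pool.Agent.H223.PS.Engine

/-! Sets of integers which are thin by a count at each scale, in residue classes modulo powers of `p`. -/

set_option autoImplicit false

open Filter Topology

namespace Pool.Agent.V1176.SQ

/-- from counts at each scale to the count of a set -/
theorem dyad_count {s : ℝ} (hs : 0 < s) (T : Set ℕ) (bad : ℕ → ℕ → Prop) (X₀ : ℕ)
    (hcount : ∀ X : ℕ, X₀ ≤ X → ({t : ℕ | 1 ≤ t ∧ t ≤ X ∧ bad X t}.ncard : ℝ) ≤ (X : ℝ) ^ s)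
    (hT : ∀ X : ℕ, X₀ ≤ X → ∀ t ∈ T, 1 ≤ t → X < 2 * t → t ≤ X → bad X t) :
    ∃ C : ℝ, ∀ X : ℕ, 1 ≤ X → ({t : ℕ | t ∈ T ∧ t ≤ X}.ncard : ℝ) ≤ C * (X : ℝ) ^ s := by
  have h2s : (2 : ℝ) ^ (-s) < 1 := Real.rpow_lt_one_of_one_lt_of_neg (by norm_num) (by linarith)
  have h2p : 0 < (2 : ℝ) ^ (-s) := by positivity
  set C : ℝ := max (X₀ : ℝ) (1 / (1 - (2 : ℝ) ^ (-s))) with hC
  have hC0 : 0 ≤ C := le_max_of_le_left (Nat.cast_nonneg _)
  have hC1 : 1 ≤ C * (1 - (2 : ℝ) ^ (-s)) := by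
    have h1 : 1 / (1 - (2 : ℝ) ^ (-s)) ≤ C := le_max_right _ _
    rwa [div_le_iff₀ (by linarith)] at h1
  have hfin : ∀ X : ℕ, {t : ℕ | t ∈ T ∧ t ≤ X}.Finite := fun X =>
    (Set.finite_Iic X).subset fun t ht => ht.2
  have hbound : ∀ X : ℕ, ({t : ℕ | t ∈ T ∧ t ≤ X}.ncard : ℝ) ≤ X + 1 := by
    intro X
    have h1 : {t : ℕ | t ∈ T ∧ t ≤ X}.ncard ≤ (Set.Iic X).ncard :=
      Set.ncard_le_ncard (fun t ht => ht.2) (Set.finite_Iic X)
    have h2 : (Set.Iic X).ncard = X + 1 := by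
      rw [← Finset.coe_Iic, Set.ncard_coe_finset, Nat.card_Iic]
    rw [h2] at h1
    exact_mod_cast h1
  have key : ∀ X : ℕ, ({t : ℕ | t ∈ T ∧ t ≤ X}.ncard : ℝ) ≤ C * (X : ℝ) ^ s + 1 := by
    intro X
    induction X using Nat.strong_induction_on with
    | _ X ih =>
      rcases Nat.eq_zero_or_pos X with h0 | h0
      · subst h0
        refine (hbound 0).trans ?_
        have : 0 ≤ C * ((0 : ℕ) : ℝ) ^ s := by positivity
        push_cast at this ⊢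
        linarith
      have hX1 : (1 : ℝ) ≤ X := by exact_mod_cast h0
      have hXs : (1 : ℝ) ≤ (X : ℝ) ^ s := Real.one_le_rpow hX1 hs.le
      rcases Nat.lt_or_ge X X₀ with h1 | h1
      · refine (hbound X).trans ?_
        have h2 : (X : ℝ) ≤ C := le_trans (by exact_mod_cast h1.le) (le_max_left _ _)
        have h3 : C ≤ C * (X : ℝ) ^ s := le_mul_of_one_le_right hC0 hXs
        linarith
      · have h2 : {t : ℕ | t ∈ T ∧ t ≤ X} ⊆ {t : ℕ | t ∈ T ∧ t ≤ X / 2} ∪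
            {t : ℕ | 1 ≤ t ∧ t ≤ X ∧ bad X t} := by
          rintro t ⟨ht, htX⟩
          rcases Nat.lt_or_ge (X / 2) t with h3 | h3
          · right
            have h4 : 1 ≤ t := by omega
            exact ⟨h4, htX, hT X h1 t ht h4 (by omega) htX⟩
          · left
            exact ⟨ht, h3⟩
        have hfin2 : ({t : ℕ | 1 ≤ t ∧ t ≤ X ∧ bad X t} : Set ℕ).Finite :=
          (Set.finite_Iic X).subset fun t ht => ht.2.1
        have h3 : ({t : ℕ | t ∈ T ∧ t ≤ X}.ncard : ℝ) ≤ ({t : ℕ | t ∈ T ∧ t ≤ X / 2}.ncard : ℝ) +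
            ({t : ℕ | 1 ≤ t ∧ t ≤ X ∧ bad X t}.ncard : ℝ) := by
          have := (Set.ncard_le_ncard h2 ((hfin _).union hfin2)).trans (Set.ncard_union_le _ _)
          exact_mod_cast this
        have h4 := ih (X / 2) (by omega)
        have h5 := hcount X h1
        have h6 : (((X / 2 : ℕ) : ℝ)) ^ s ≤ (2 : ℝ) ^ (-s) * (X : ℝ) ^ s := by
          have h7 : ((X / 2 : ℕ) : ℝ) ≤ (X : ℝ) / 2 := Nat.cast_div_le
          calc (((X / 2 : ℕ) : ℝ)) ^ s ≤ ((X : ℝ) / 2) ^ s :=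
                Real.rpow_le_rpow (Nat.cast_nonneg _) h7 hs.le
            _ = (2 : ℝ) ^ (-s) * (X : ℝ) ^ s := by
                rw [Real.div_rpow (by linarith) (by norm_num), Real.rpow_neg (by norm_num)]
                field_simp
        have h7 : C * (((X / 2 : ℕ) : ℝ)) ^ s ≤ C * ((2 : ℝ) ^ (-s) * (X : ℝ) ^ s) :=
          mul_le_mul_of_nonneg_left h6 hC0
        have h8 : 1 * (X : ℝ) ^ s ≤ C * (1 - (2 : ℝ) ^ (-s)) * (X : ℝ) ^ s :=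
          mul_le_mul_of_nonneg_right hC1 (by linarith)
        nlinarith
  refine ⟨C + 1, fun X hX => (key X).trans ?_⟩
  have hX1 : (1 : ℝ) ≤ X := by exact_mod_cast hX
  have hXs : (1 : ℝ) ≤ (X : ℝ) ^ s := Real.one_le_rpow hX1 hs.le
  linarith

/-- **Residue classes.** -/
theorem padic_of_bad (p : ℕ) [Fact p.Prime] {s σ : ℝ} (hs : 0 < s) (hσ : 0 < σ) (T : Set ℕ)
    (bad : ℕ → ℕ → Prop) (X₀ : ℕ)
    (hcount : ∀ X : ℕ, X₀ ≤ X → ({t : ℕ | 1 ≤ t ∧ t ≤ X ∧ bad X t}.ncard : ℝ) ≤ (X : ℝ) ^ s)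
    (hT : ∀ X : ℕ, X₀ ≤ X → ∀ t ∈ T, 1 ≤ t → X < 2 * t → t ≤ X → bad X t) :
    ∃ E : Set ℤ_[p], dimH E ≤ ENNReal.ofReal (s / σ) ∧ ∀ α ∉ E, ∃ Y₀ : ℝ, ∀ Y ≥ Y₀, ∀ t : ℕ,
      (t : ℝ) ≤ Y → ‖(t : ℤ_[p]) - α‖ ≤ Y ^ (-σ) → t ∉ T := by
  obtain ⟨C, hC⟩ := dyad_count hs T bad X₀ hcount hT
  have hC0 : 0 ≤ C := by
    have h1 := hC 1 le_rfl
    rw [Nat.cast_one, Real.one_rpow, mul_one] at h1
    exact (Nat.cast_nonneg _).trans h1
  obtain ⟨E, hE, h⟩ := Pool.Agent.H223.PS.padic_nat' p (fun _ => T) hs.le (fun j ε hε => by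
    refine ⟨C, fun X hX => ⟨(Set.finite_Iic X).subset fun t ht => ht.2, (hC X hX).trans ?_⟩⟩
    refine mul_le_mul_of_nonneg_left ?_ hC0
    exact Real.rpow_le_rpow_of_exponent_le (by exact_mod_cast hX) (by linarith)) hσ
  exact ⟨E, hE, fun α hα => h α hα 0⟩

end Pool.Agent.V1176.SQ
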